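import Pool.Agent.P8H30.LG.Stm

/-!
# Project LG, package REC: recurrences of the coefficients of the Frobenius basis
-/

set_option autoImplicit false

open PowerSeries

namespace Pool.Agent.P8H26.LG

open Pool.Agent.P8H30.LG

lemma c0 (A B : PowerSeries ℚ) : coeff 0 (A * B) = coeff 0 A * coeff 0 B := by
  rw [coeff_mul, Finset.Nat.antidiagonal_zero, Finset.sum_singleton]

lemma c1 (A B : PowerSeries ℚ) :
    coeff 1 (A * B) = coeff 0 A * coeff 1 B + coeff 1 A * coeff 0 B := by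
  rw [coeff_mul]
  have h : Finset.HasAntidiagonal.antidiagonal 1 = {((0 : ℕ), (1 : ℕ)), (1, 0)} := rfl
  rw [h, Finset.sum_insert (by simp), Finset.sum_singleton]

lemma sh0 (k : ℕ) : coeff 0 (sh k) = (k : ℚ) := by
  simp [sh]

lemma sh1 (k : ℕ) : coeff 1 (sh k) = (1 : ℚ) := by
  unfold sh
  rw [map_add, coeff_C, coeff_one_X]
  simp

lemma shc0 (k : ℕ) (q : ℚ) : coeff 0 (sh k + C q) = (k : ℚ) + q := by
  rw [map_add, sh0]
  simp

lemma shc1 (k : ℕ) (q : ℚ) : coeff 1 (sh k + C q) = (1 : ℚ) := by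
  rw [map_add, sh1, coeff_C]
  simp

/-- the basic relation -/
lemma basic (k : ℕ) : (sh (k + 1) * sh (k + 1)) * fr (k + 1) =
    ((sh k + C (1 / 2 : ℚ)) * (sh k + C (1 / 2 : ℚ))) * fr k := by
  have h1 : sh (k + 1) * (sh (k + 1))⁻¹ = 1 := by
    apply PowerSeries.mul_inv_cancel
    rw [← coeff_zero_eq_constantCoeff_apply, sh0]
    positivity
  have h2 : (1 - 1 / 2 : ℚ) = 1 / 2 := by norm_num
  unfold fr
  rw [Finset.prod_range_succ, h2]
  calc _ = (sh (k + 1) * (sh (k + 1))⁻¹) * (sh (k + 1) * (sh (k + 1))⁻¹) *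
        (((sh k + C (1 / 2 : ℚ)) * (sh k + C (1 / 2 : ℚ))) *
          ∏ l ∈ Finset.range k, (((sh l + C (1 / 2 : ℚ)) * (sh l + C (1 / 2 : ℚ))) *
            ((sh (l + 1))⁻¹) ^ 2)) := by ring
    _ = _ := by rw [h1, one_mul, one_mul]

lemma relA (k : ℕ) : ((k : ℚ) + 1) ^ 2 * coeff 0 (fr (k + 1)) =
    ((k : ℚ) + 1 / 2) ^ 2 * coeff 0 (fr k) := by
  have h := congrArg (coeff 0) (basic k)
  rw [c0, c0, c0, c0, sh0, shc0] at h
  push_cast at h
  linear_combination h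

lemma relB (k : ℕ) : ((k : ℚ) + 1) ^ 2 * coeff 1 (fr (k + 1)) +
    2 * ((k : ℚ) + 1) * coeff 0 (fr (k + 1)) =
    ((k : ℚ) + 1 / 2) ^ 2 * coeff 1 (fr k) + 2 * ((k : ℚ) + 1 / 2) * coeff 0 (fr k) := by
  have h := congrArg (coeff 1) (basic k)
  rw [c1, c1, c1, c1, c0, c0, sh0, sh1, shc0, shc1] at h
  push_cast at h
  linear_combination h

lemma fr_zero : fr 0 = 1 := by
  unfold fr
  rw [Finset.prod_range_zero]

lemma u_rel (k : ℕ) : ((k : ℝ) + 1) ^ 2 * u (k + 1) = ((k : ℝ) + 1 / 2) ^ 2 * u k := by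
  unfold u
  have h := congrArg (fun q : ℚ => (q : ℝ)) (relA k)
  push_cast at h
  exact h

lemma v_rel (k : ℕ) : ((k : ℝ) + 1) ^ 2 * v (k + 1) + 2 * ((k : ℝ) + 1) * u (k + 1) =
    ((k : ℝ) + 1 / 2) ^ 2 * v k + 2 * ((k : ℝ) + 1 / 2) * u k := by
  unfold u v
  have h := congrArg (fun q : ℚ => (q : ℝ)) (relB k)
  push_cast at h
  exact h

lemma u_bound (k : ℕ) : 0 ≤ u k ∧ u k ≤ 1 := by
  induction k with
  | zero => unfold u; rw [fr_zero]; simp
  | succ k ih =>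
    have h := u_rel k
    have hk : (0 : ℝ) ≤ k := Nat.cast_nonneg k
    have hp : (0 : ℝ) < ((k : ℝ) + 1) ^ 2 := by positivity
    constructor
    · by_contra hc
      push Not at hc
      have h1 : ((k : ℝ) + 1) ^ 2 * u (k + 1) < 0 := mul_neg_of_pos_of_neg hp hc
      have h2 : 0 ≤ ((k : ℝ) + 1 / 2) ^ 2 * u k := mul_nonneg (by positivity) ih.1
      linarith
    · by_contra hc
      push Not at hc
      have h1 : ((k : ℝ) + 1) ^ 2 * 1 < ((k : ℝ) + 1) ^ 2 * u (k + 1) :=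
        mul_lt_mul_of_pos_left hc hp
      have h2 : ((k : ℝ) + 1 / 2) ^ 2 * u k ≤ ((k : ℝ) + 1 / 2) ^ 2 * 1 :=
        mul_le_mul_of_nonneg_left ih.2 (by positivity)
      nlinarith

lemma v_bound (k : ℕ) : 0 ≤ v k ∧ v k ≤ k := by
  induction k with
  | zero => unfold v; rw [fr_zero]; simp [coeff_one]
  | succ k ih =>
    have hk : (0 : ℝ) ≤ k := Nat.cast_nonneg k
    obtain ⟨hu0, hu1⟩ := u_bound k
    have hp : (0 : ℝ) < ((k : ℝ) + 1) ^ 3 := by positivity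
    have key : ((k : ℝ) + 1) ^ 3 * v (k + 1) =
        ((k : ℝ) + 1) * ((k : ℝ) + 1 / 2) ^ 2 * v k + ((k : ℝ) + 1 / 2) * u k := by
      have h1 := u_rel k
      have h2 := v_rel k
      linear_combination ((k : ℝ) + 1) * h2 - 2 * h1
    constructor
    · by_contra hc
      push Not at hc
      have h1 : ((k : ℝ) + 1) ^ 3 * v (k + 1) < 0 := mul_neg_of_pos_of_neg hp hc
      have h2 : 0 ≤ ((k : ℝ) + 1) * ((k : ℝ) + 1 / 2) ^ 2 * v k :=
        mul_nonneg (by positivity) ih.1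
      have h3 : 0 ≤ ((k : ℝ) + 1 / 2) * u k := mul_nonneg (by positivity) hu0
      linarith
    · by_contra hc
      push Not at hc
      push_cast at hc
      have h1 : ((k : ℝ) + 1) ^ 3 * ((k : ℝ) + 1) < ((k : ℝ) + 1) ^ 3 * v (k + 1) :=
        mul_lt_mul_of_pos_left hc hp
      have h2 : ((k : ℝ) + 1) * ((k : ℝ) + 1 / 2) ^ 2 * v k ≤
          ((k : ℝ) + 1) * ((k : ℝ) + 1 / 2) ^ 2 * k :=
        mul_le_mul_of_nonneg_left ih.2 (by positivity)
      have h3 : ((k : ℝ) + 1 / 2) * u k ≤ ((k : ℝ) + 1 / 2) * 1 :=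
        mul_le_mul_of_nonneg_left hu1 (by positivity)
      nlinarith [pow_nonneg hk 2, pow_nonneg hk 3]

theorem t_rec : S_REC := by
  refine ⟨?_, ?_, u_rel, v_rel, fun k => ?_, fun k => ?_, fun k => ?_, fun k => ?_⟩
  · unfold u; rw [fr_zero]; simp
  · unfold v; rw [fr_zero]; simp [coeff_one]
  · rw [abs_of_nonneg (u_bound k).1]; exact (u_bound k).2
  · rw [abs_of_nonneg (v_bound k).1]; exact (v_bound k).2
  · unfold u
    rw [c0, sh0]
    push_cast
    ring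
  · unfold u v
    rw [c1, sh0, sh1]
    push_cast
    ring

end Pool.Agent.P8H26.LG
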